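import Pool.Agent.Helper78_NDM.Stmts

/-!
# NDM module SCL
-/

set_option autoImplicit false
set_option linter.unusedVariables false
set_option linter.unusedSectionVars false

namespace Pool.Agent.NDM.H59

open PowerSeries Finset Pool.Agent.Helper6_Mono Pool.Agent.Helper32_OMP

/-- shift of a series -/
noncomputable def shf {S : Type} [CommRing S] (a : S⟦X⟧) : S⟦X⟧ :=
  PowerSeries.mk fun j => coeff (j + 1) a

theorem coeff_shf {S : Type} [CommRing S] (a : S⟦X⟧) (j : ℕ) :
    coeff j (shf a) = coeff (j + 1) a := by rw [shf, coeff_mk]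

theorem X_mul_shf {S : Type} [CommRing S] (a : S⟦X⟧) (h : coeff 0 a = 0) : X * shf a = a := by
  ext j
  cases j with
  | zero => rw [coeff_zero_X_mul, h]
  | succ j => rw [coeff_succ_X_mul, coeff_shf]

theorem shf_X_mul {S : Type} [CommRing S] (a : S⟦X⟧) : shf (X * a) = a := by
  ext j
  rw [coeff_shf, coeff_succ_X_mul]

/-- the indices of the free coefficients -/
def Df (σ : Type) (M n : ℕ) : Set (σ × ℕ) := {p | M < p.2 ∧ p.2 < M + n}

theorem Df_eq (σ : Type) [Fintype σ] (M n : ℕ) :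
    Df σ M n = ((Finset.univ ×ˢ Finset.Ioo M (M + n) : Finset (σ × ℕ)) : Set (σ × ℕ)) := by
  ext ⟨l, b⟩
  simp [Df]

theorem Df_finite (σ : Type) [Fintype σ] (M n : ℕ) : (Df σ M n).Finite := by
  rw [Df_eq]
  exact Finset.finite_toSet _

theorem Df_ncard (σ : Type) [Fintype σ] (M n : ℕ) :
    (Df σ M n).ncard = Fintype.card σ * (n - 1) := by
  rw [Df_eq, Set.ncard_coe_finset, Finset.card_product, Nat.card_Ioo, Finset.card_univ]
  congr 1
  omega

section

variable {k : Type} [Field k] {σ ι : Type} [Fintype σ]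

theorem lf_X_mul {S : Type} [CommRing S] [Algebra k S] (a : σ → k) (z : σ → S⟦X⟧) :
    lf a (fun l => X * z l) = X * lf a z := by
  unfold lf
  rw [Finset.mul_sum]
  exact Finset.sum_congr rfl fun l _ => by rw [mul_smul_comm]

theorem pp_X_mul {S : Type} [CommRing S] [Algebra k S] (L : ι → σ → k) (m : ι → ℕ)
    (F : Finset ι) (z : σ → S⟦X⟧) :
    pp L m F (fun l => X * z l) = X ^ (∑ i ∈ F, m i) * pp L m F z := by
  unfold pp
  rw [← Finset.prod_pow_eq_pow_sum, ← Finset.prod_mul_distrib]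
  exact Finset.prod_congr rfl fun i _ => by rw [lf_X_mul, mul_pow]

/-- low coefficients of the product depend on low coefficients of the jets only -/
theorem pp_congr {S : Type} [CommRing S] [Algebra k S] (L : ι → σ → k) (m : ι → ℕ)
    (F : Finset ι) (M : ℕ) (z z' : σ → S⟦X⟧) (h : ∀ l, ∀ j ≤ M, coeff j (z l) = coeff j (z' l))
    (w : S⟦X⟧) : ∀ j ≤ M, coeff j (w * pp L m F z) = coeff j (w * pp L m F z') := by
  have hX : (X : S⟦X⟧) ^ (M + 1) ∣ pp L m F z - pp L m F z' := by
    have h1 : ∀ i, (Ideal.Quotient.mk (Ideal.span {(X : S⟦X⟧) ^ (M + 1)})) (lf (L i) z)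
        = (Ideal.Quotient.mk (Ideal.span {(X : S⟦X⟧) ^ (M + 1)})) (lf (L i) z') := by
      intro i
      rw [Ideal.Quotient.eq, Ideal.mem_span_singleton, X_pow_dvd_iff]
      intro j hj
      rw [map_sub, coeff_lf, coeff_lf]
      have : (fun l => coeff j (z l)) = fun l => coeff j (z' l) :=
        funext fun l => h l j (by omega)
      rw [this, sub_self]
    rw [← Ideal.mem_span_singleton, ← Ideal.Quotient.eq]
    unfold pp
    rw [map_prod, map_prod]
    exact Finset.prod_congr rfl fun i _ => by rw [map_pow, map_pow, h1]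
  intro j hj
  obtain ⟨V, hV⟩ := hX
  have h2 : w * pp L m F z = w * pp L m F z' + X ^ (M + 1) * (w * V) := by
    have : pp L m F z = pp L m F z' + X ^ (M + 1) * V := by rw [← hV]; ring
    rw [this]
    ring
  rw [h2, map_add, coeff_X_pow_mul', if_neg (by omega), add_zero]

theorem isT_shift {S : Type} [CommRing S] (M n : ℕ) (q : S⟦X⟧) :
    IsT (M + n) (X ^ n * q) ↔ IsT M q := by
  constructor
  · intro h j hj
    have h1 := h (j + n) (by omega)
    rw [coeff_X_pow_mul', if_pos (by omega), Nat.add_sub_cancel] at h1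
    rw [h1]
    by_cases e : j = M
    · rw [if_pos e, if_pos (by omega)]
    · rw [if_neg e, if_neg (by omega)]
  · intro h j hj
    rw [coeff_X_pow_mul']
    by_cases hn : n ≤ j
    · rw [if_pos hn, h (j - n) (by omega)]
      by_cases e : j = M + n
      · rw [if_pos e, if_pos (by omega)]
      · rw [if_neg e, if_neg (by omega)]
    · rw [if_neg hn, if_neg (by omega)]

variable {β : Type} {wβ : β → QZ}

theorem hkey {S : Type} [CommRing S] [Algebra k S] (L : ι → σ → k) (m : ι → ℕ)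
    (F : Finset ι) (M : ℕ) (u : S) (a b : σ → S⟦X⟧) (hb : ∀ l, ∀ j ≤ M, coeff j (b l) = 0) :
    IsT (M + ∑ i ∈ F, m i) (C u * pp L m F (fun l => X * (a l + b l))) ↔
      IsT M (C u * pp L m F a) := by
  have e : C u * pp L m F (fun l => X * (a l + b l))
      = X ^ (∑ i ∈ F, m i) * (C u * pp L m F (fun l => a l + b l)) := by
    rw [pp_X_mul]; ring
  rw [e, isT_shift]
  have h1 := pp_congr L m F M (fun l => a l + b l) a
    (fun l j hj => by rw [map_add, hb l j hj, add_zero]) (C u)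
  constructor
  · intro h j hj
    rw [← h1 j hj]; exact h j hj
  · intro h j hj
    rw [h1 j hj]; exact h j hj

theorem scl_iso (L : ι → σ → k) (m : ι → ℕ) (F : Finset ι) (hF : 0 < ∑ i ∈ F, m i)
    (M : ℕ) (ω θ : QZ) (Y : Over k QZ β wβ) {wu : QZ} (u : NF Y.F wu)
    (h : wu + (∑ i ∈ F, m i) • θ + (M + ∑ i ∈ F, m i) • ω = 0)
    (h' : wu + (∑ i ∈ F, m i) • (θ + ω) + M • ω = 0) :
    OIso (JJ L m F (M + ∑ i ∈ F, m i) ω θ Y u h)
      ((JZ L m F M ω (θ + ω) Y u h').times
        (serGF k (Df σ M (∑ i ∈ F, m i)) (fun _ => θ + ω) ω)) := by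
  have hv0 : ∀ {S : Type} [CommRing S] [Algebra k S]
      (z : (serGF k (Dj σ (M + ∑ i ∈ F, m i)) (fun _ : σ => θ) ω).obj S) (l : σ),
      coeff 0 (z.1 l) = 0 := by
    intro S _ _ z l
    exact z.2 l 0 (fun h => by
      have := h.1
      simp only at this
      omega)
  have hrec : ∀ {S : Type} [CommRing S] (a : S⟦X⟧), lowS M a + (a - lowS M a) = a := by
    intro S _ a
    ring
  have hlow0 : ∀ {S : Type} [CommRing S] (a : S⟦X⟧), ∀ j ≤ M, coeff j (a - lowS M a) = 0 := by
    intro S _ a j hj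
    rw [map_sub, coeff_lowS, if_pos hj, sub_self]
  have htw : ∀ {S S' : Type} [CommRing S] [Algebra k S] [CommRing S'] [Algebra k S']
      (φ : S →ₐ[k] S') (c : Chr QZ S') (a : S⟦X⟧),
      shf (C (chr c θ) * twS ω φ c a) = C (chr c (θ + ω)) * twS ω φ c (shf a) := by
    intro S S' _ _ _ _ φ c a
    ext j
    rw [coeff_shf, coeff_C_mul, coeff_C_mul, coeff_twS, coeff_twS, coeff_shf, chr_add,
      add_smul, one_smul, chr_add]
    ring
  refine OIso.mk'
    (fun S _ _ p => (⟨(p.1.1, ⟨fun l => lowS M (shf (p.1.2.1 l)), ?_⟩), ?_⟩,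
      ⟨fun l => shf (p.1.2.1 l) - lowS M (shf (p.1.2.1 l)), ?_⟩))
    (fun S _ _ q => ⟨(q.1.1.1, ⟨fun l => X * (q.1.1.2.1 l + q.2.1 l), ?_⟩), ?_⟩)
    (fun S _ _ p => ?_) (fun S _ _ q => ?_) (fun φ c p => ?_) (fun S _ _ p b => rfl)
  · intro l j hj
    have hj' : M < j := not_le.1 hj
    rw [coeff_lowS, if_neg (by omega)]
  · have h1 := (hkey L m F M (u.fn p.1.1) (fun l => lowS M (shf (p.1.2.1 l)))
      (fun l => shf (p.1.2.1 l) - lowS M (shf (p.1.2.1 l))) (fun l => hlow0 _)).1
    apply h1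
    have e : (fun l => X * (lowS M (shf (p.1.2.1 l)) +
        (shf (p.1.2.1 l) - lowS M (shf (p.1.2.1 l))))) = p.1.2.1 := by
      funext l
      rw [hrec, X_mul_shf _ (hv0 _ l)]
    rw [e]
    exact p.2
  · intro l j hj
    rw [map_sub, coeff_lowS, coeff_shf]
    by_cases hM : j ≤ M
    · rw [if_pos hM, sub_self]
    · rw [if_neg hM, sub_zero]
      refine p.1.2.2 l (j + 1) fun hh => hj ⟨not_le.1 hM, ?_⟩
      have := hh.2
      simp only at this ⊢
      omega
  · intro l j hj
    cases j with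
    | zero => rw [coeff_zero_X_mul]
    | succ j =>
      have hj' : M + ∑ i ∈ F, m i < j + 1 := by
        by_contra hc
        exact hj ⟨by simp only; omega, not_lt.1 hc⟩
      rw [coeff_succ_X_mul, map_add, q.1.1.2.2 l j (fun hh => by
        have h1 : j ≤ M := hh
        omega), q.2.2 l j (fun hh => by
        have h1 := hh.2
        simp only at h1
        omega), add_zero]
  · exact (hkey L m F M (u.fn q.1.1.1) q.1.1.2.1 q.2.1 (fun l j hj => q.2.2 l j (fun hh => by
      have h1 := hh.1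
      simp only at h1
      omega))).2 q.1.2
  · refine Subtype.ext (Prod.ext rfl (Subtype.ext (funext fun l => ?_)))
    show X * (lowS M (shf (p.1.2.1 l)) + (shf (p.1.2.1 l) - lowS M (shf (p.1.2.1 l))))
      = p.1.2.1 l
    rw [hrec, X_mul_shf _ (hv0 _ l)]
  · have e1 : ∀ l, lowS M (q.1.1.2.1 l + q.2.1 l) = q.1.1.2.1 l := by
      intro l
      ext j
      rw [coeff_lowS]
      by_cases hM : j ≤ M
      · rw [if_pos hM, map_add, q.2.2 l j (fun hh => by
          have h1 := hh.1
          simp only at h1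
          omega), add_zero]
      · rw [if_neg hM, q.1.1.2.2 l j hM]
    refine Prod.ext (Subtype.ext (Prod.ext rfl (Subtype.ext (funext fun l => ?_))))
      (Subtype.ext (funext fun l => ?_))
    · show lowS M (shf (X * (q.1.1.2.1 l + q.2.1 l))) = q.1.1.2.1 l
      rw [shf_X_mul, e1]
    · show shf (X * (q.1.1.2.1 l + q.2.1 l)) - lowS M (shf (X * (q.1.1.2.1 l + q.2.1 l)))
        = q.2.1 l
      rw [shf_X_mul, e1]
      ring
  · refine Prod.ext (Subtype.ext (Prod.ext rfl (Subtype.ext (funext fun l => ?_))))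
      (Subtype.ext (funext fun l => ?_))
    · show lowS M (shf (C (chr c θ) * twS ω φ c (p.1.2.1 l)))
        = C (chr c (θ + ω)) * twS ω φ c (lowS M (shf (p.1.2.1 l)))
      rw [htw, lowS_C_mul, twS_lowS]
    · show shf (C (chr c θ) * twS ω φ c (p.1.2.1 l))
          - lowS M (shf (C (chr c θ) * twS ω φ c (p.1.2.1 l)))
        = C (chr c (θ + ω)) * twS ω φ c (shf (p.1.2.1 l) - lowS M (shf (p.1.2.1 l)))
      rw [htw, lowS_C_mul, map_sub (twS ω φ c), twS_lowS]
      ring

end

/-- Module SCL. -/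
theorem scl : SclStmt := by
  intro k _ σ ι _ β wβ R _ L0 χ L m F hF Y hY wu u ω θ
  refine ⟨fun M h hM => ?_, fun M h h' => ?_⟩
  · refine χ.empty (FT_JJ L m F M ω θ hY u h) fun S _ _ x => ?_
    have h1 := x.2 M le_rfl
    rw [if_pos rfl] at h1
    have hv0 : ∀ l, coeff 0 (x.1.2.1 l) = 0 := fun l => x.1.2.2 l 0 (fun h => by
      have := h.1
      simp only at this
      omega)
    have e : x.1.2.1 = fun l => X * shf (x.1.2.1 l) := funext fun l => (X_mul_shf _ (hv0 l)).symm
    have e2 : C (u.fn x.1.1) * pp L m F x.1.2.1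
        = X ^ (∑ i ∈ F, m i) * (C (u.fn x.1.1) * pp L m F fun l => shf (x.1.2.1 l)) := by
      conv_lhs => rw [e]
      rw [pp_X_mul]
      ring
    rw [e2, coeff_X_pow_mul', if_neg (by omega)] at h1
    exact h1.symm
  · rw [χ.iso (FT_JJ L m F _ ω θ hY u h) (scl_iso L m F hF M ω θ Y u h h'),
      times_ser χ (FT_JZ L m F M ω (θ + ω) hY u h') (Df_finite σ M _), Df_ncard]

end Pool.Agent.NDM.H59
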